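import Pool.Agent.H88.Gr2

open Pool.Agent.H88 in
theorem Pool.Agent.Results.MP_5544e1_an.Yes.result :
    ∃ (X : Type) (_ : NormedAddCommGroup X) (_ : NormedSpace ℝ X), CompleteSpace X ∧ Gh.UD X ∧
      ∃ N : Seminorm ℝ X, (∃ a b : ℝ, 0 < a ∧ 0 < b ∧ ∀ x, a * ‖x‖ ≤ N x ∧ N x ≤ b * ‖x‖) ∧
        ∀ x y, N (x + y) = 2 * N x → N x = N y → x = y := by
  obtain ⟨φ, h⟩ := Gr.total
  exact ⟨Gr.XX, inferInstance, inferInstance,
    (Submodule.isClosed_topologicalClosure _).completeSpace_coe, Gr.ud,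
    Gr.rot (fun n => Gr.ev (φ n)) (fun n => Gr.ev_le _) h⟩
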